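import Pool.Agent.H350Z.SerreA
import Pool.Agent.H505Z.NP.Defs

/-! Serre finiteness in concrete Cech form. -/

set_option autoImplicit false

namespace Pool.Agent.H350Z.Serre

open Filter

section Loc
variable {K V : Type} [Field K] [CommRing V] [Algebra K V]

theorem Deg.mul {y z : V} {k j : ℕ} {N N' N'' : ℕ → Submodule K V} (hy : Deg y k N' N'')
    (hz : Deg z j N N') : Deg (y * z) (j + k) N N'' := by
  intro d v hv
  rw [mul_assoc, ← add_assoc]
  exact hy _ _ (hz d v hv)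

theorem Deg.pow {y : V} {k : ℕ} {N : ℕ → Submodule K V} (hy : Deg y k N N) (M : ℕ) :
    Deg (y ^ M) (k * M) N N := by
  induction M with
  | zero => intro d v hv; simpa using hv
  | succ M ih =>
    have := hy.mul ih
    rw [pow_succ', mul_add, mul_one]
    exact this

/-- degree `d` part of the localisation at `y` (of degree `k`), inside `V` -/
def Lg (y : V) (k : ℕ) (N : ℕ → Submodule K V) (d : ℕ) : Submodule K V where
  carrier := {v | ∀ᶠ M in atTop, y ^ M * v ∈ N (d + k * M)}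
  add_mem' := by
    intro a b ha hb
    filter_upwards [ha, hb] with M h1 h2
    rw [mul_add]
    exact (N _).add_mem h1 h2
  zero_mem' := by
    filter_upwards with M
    simp
  smul_mem' := by
    intro r a ha
    filter_upwards [ha] with M h1
    rw [mul_smul_comm]
    exact (N _).smul_mem r h1

theorem mem_Lg {y : V} {k : ℕ} {N : ℕ → Submodule K V} {d : ℕ} {v : V} :
    v ∈ Lg y k N d ↔ ∀ᶠ M in atTop, y ^ M * v ∈ N (d + k * M) := Iff.rfl

theorem Lg_of_exists {y : V} {k : ℕ} {N : ℕ → Submodule K V} (hy : Deg y k N N) {d : ℕ} {v : V}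
    {M : ℕ} (h : y ^ M * v ∈ N (d + k * M)) : v ∈ Lg y k N d := by
  rw [mem_Lg, eventually_atTop]
  refine ⟨M, fun M' hM' => ?_⟩
  obtain ⟨e, rfl⟩ := Nat.exists_eq_add_of_le hM'
  have := hy.pow e _ _ h
  rw [← mul_assoc, ← pow_add, add_comm e M, add_assoc, ← mul_add] at this
  exact this

theorem Lg_mul {y z : V} {k j : ℕ} {N : ℕ → Submodule K V} (hz : Deg z j N N) {d : ℕ} {v : V}
    (h : v ∈ Lg y k N d) : v ∈ Lg (z * y) (k + j) N d := by
  filter_upwards [h] with M h1
  have := hz.pow M _ _ h1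
  rw [← mul_assoc, ← mul_pow, add_assoc, ← add_mul] at this
  exact this

theorem Lg_smul {y z : V} {k j : ℕ} {N N' : ℕ → Submodule K V} (hz : Deg z j N N') {d : ℕ} {v : V}
    (h : v ∈ Lg y k N d) : z * v ∈ Lg y k N' (d + j) := by
  filter_upwards [h] with M h1
  have := hz _ _ h1
  rw [mul_left_comm, add_right_comm] at this
  exact this

theorem Lg_mono {y : V} {k : ℕ} {N N' : ℕ → Submodule K V} (hle : ∀ d, N d ≤ N' d) {d : ℕ}
    {v : V} (h : v ∈ Lg y k N d) : v ∈ Lg y k N' d := by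
  filter_upwards [h] with M h1
  exact hle _ h1

/-- kernel family of multiplication by `x` on `N / N'` -/
def KerF (x : V) (N N' : ℕ → Submodule K V) (d : ℕ) : Submodule K V :=
  N d ⊓ (N' (d + 1)).comap (LinearMap.mulLeft K x)

/-- denominator family of the cokernel of multiplication by `x` on `N / N'` -/
def CokF (x : V) (N N' : ℕ → Submodule K V) : ℕ → Submodule K V
  | 0 => N' 0
  | e + 1 => N' (e + 1) ⊔ (N e).map (LinearMap.mulLeft K x)

theorem le_CokF (x : V) (N N' : ℕ → Submodule K V) : ∀ d, N' d ≤ CokF x N N' d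
  | 0 => le_rfl
  | _ + 1 => le_sup_left

theorem deg_CokF (x : V) (N N' : ℕ → Submodule K V) : Deg x 1 N (CokF x N N') := by
  intro d v hv
  exact Submodule.mem_sup_right ⟨v, hv, rfl⟩

theorem stab_CokF {x z : V} {N N' : ℕ → Submodule K V} (h : Deg z 1 N N) (h' : Deg z 1 N' N') :
    Deg z 1 (CokF x N N') (CokF x N N') := by
  intro d v hv
  rcases d with _ | d
  · exact le_CokF x N N' _ (h' 0 v hv)
  · obtain ⟨a, ha, _, ⟨b, hb, rfl⟩, rfl⟩ := Submodule.mem_sup.1 hv
    rw [mul_add]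
    refine Submodule.add_mem _ (le_CokF x N N' _ (h' _ a ha)) ?_
    have := deg_CokF x N N' _ _ (h d b hb)
    rw [mul_left_comm] at this
    exact this

theorem stab_KerF {x z : V} {N N' : ℕ → Submodule K V} (h : Deg z 1 N N) (h' : Deg z 1 N' N') :
    Deg z 1 (KerF x N N') (KerF x N N') := by
  intro d v hv
  refine ⟨h d v hv.1, ?_⟩
  have := h' _ _ hv.2
  change x * (z * v) ∈ N' (d + 1 + 1)
  rw [mul_left_comm]
  exact this

theorem Lg_ker {x y : V} {k : ℕ} {N N' : ℕ → Submodule K V} {d : ℕ} {v : V}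
    (h : v ∈ Lg y k N d) (h' : x * v ∈ Lg y k N' (d + 1)) : v ∈ Lg y k (KerF x N N') d := by
  filter_upwards [h, h'] with M h1 h2
  refine ⟨h1, ?_⟩
  change x * (y ^ M * v) ∈ N' (d + k * M + 1)
  rw [mul_left_comm, add_right_comm]
  exact h2

theorem Lg_cok (hreg : ∀ a : V, ∃ b, a * a * b = a) {x y : V} {k : ℕ} {N N' : ℕ → Submodule K V}
    (hy : Deg y k N N) (hy' : Deg y k N' N') {d : ℕ} {v : V}
    (h : v ∈ Lg y k (CokF x N N') (d + 1)) :
    ∃ w ∈ Lg y k N d, v - x * w ∈ Lg y k N' (d + 1) := by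
  obtain ⟨M, hM⟩ := (mem_Lg.1 h).exists
  rw [add_right_comm] at hM
  obtain ⟨a, ha, _, ⟨b, hb, rfl⟩, hab⟩ := Submodule.mem_sup.1 hM
  obtain ⟨u, hu⟩ := hreg (y ^ M)
  have hab' : a + x * b = y ^ M * v := hab
  refine ⟨u * b, Lg_of_exists hy (M := M + M) ?_, Lg_of_exists hy' (M := M + M) ?_⟩
  · have := hy.pow M _ _ hb
    rw [pow_add, ← mul_assoc, hu, mul_add, ← add_assoc]
    exact this
  · have := hy'.pow M _ _ ha
    have e1 : y ^ (M + M) * (v - x * (u * b)) = y ^ M * a := by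
      have : a = y ^ M * v - x * b := by rw [← hab']; ring
      rw [this, pow_add]
      linear_combination (-(x * b)) * hu
    rw [e1, mul_add, ← add_assoc, add_right_comm d 1]
    exact this

end Loc

section Cech
variable {K V : Type} [Field K] [CommRing V] [Algebra K V] {ι : Type} (τ : ι → V)

/-- coboundary, as a function -/
def dl : List ι → (List ι → V) → V
  | [], _ => 0
  | i :: I, c => c I - dl I (fun J => c (i :: J))

theorem dl_add (I : List ι) : ∀ c c' : List ι → V, dl I (c + c') = dl I c + dl I c' := by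
  induction I with
  | nil => intro c c'; simp [dl]
  | cons i I ih =>
    intro c c'
    have := ih (fun J => c (i :: J)) (fun J => c' (i :: J))
    simp only [dl, Pi.add_apply]
    rw [show (fun J => c (i :: J) + c' (i :: J)) =
      (fun J => c (i :: J)) + (fun J => c' (i :: J)) from rfl, this]
    ring

theorem dl_smul (I : List ι) (r : V) : ∀ c : List ι → V, dl I (r • c) = r * dl I c := by
  induction I with
  | nil => intro c; simp [dl]
  | cons i I ih =>
    intro c
    have := ih (fun J => c (i :: J))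
    simp only [dl, Pi.smul_apply, smul_eq_mul]
    rw [show (fun J => r * c (i :: J)) = r • (fun J => c (i :: J)) from rfl, this]
    ring

/-- coboundary, `V`-linear -/
def δV : (List ι → V) →ₗ[V] (List ι → V) where
  toFun c := fun I => dl I c
  map_add' c c' := by funext I; exact dl_add I c c'
  map_smul' r c := by funext I; exact dl_smul I r c

/-- coboundary, `K`-linear -/
def δ (K : Type) [Field K] [Algebra K V] : (List ι → V) →ₗ[K] (List ι → V) :=
  (δV : (List ι → V) →ₗ[V] (List ι → V)).restrictScalars K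

theorem δ_apply (c : List ι → V) (I : List ι) : δ K c I = dl I c := rfl

theorem δ_smul (r : V) (c : List ι → V) : δ K (r • c) = r • δ K c :=
  (δV : (List ι → V) →ₗ[V] (List ι → V)).map_smul r c

/-- contraction with an index -/
def hom (n : ι) (c : List ι → V) : List ι → V := fun J => c (n :: J)

theorem homotopy (n : ι) (c : List ι → V) : c = δ K (hom n c) + hom n (δ K c) := by
  funext I
  simp only [Pi.add_apply, hom, δ_apply, dl]
  unfold hom
  ring

theorem δδ (c : List ι → V) : δ K (δ K c) = 0 := by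
  funext I
  induction I generalizing c with
  | nil => simp [δ_apply, dl]
  | cons i I ih =>
    have h1 := homotopy (K := K) i (δ K c)
    have h2 : hom i (δ K c) = c - δ K (hom i c) := by
      rw [eq_sub_iff_add_eq']; exact (homotopy i c).symm
    have h3 := congrFun h1 I
    rw [h2, map_sub, Pi.add_apply, Pi.sub_apply, ih (hom i c)] at h3
    change hom i (δ K (δ K c)) I = 0
    simpa using h3.symm

/-- product of the `τ i` along a list -/
def xx (I : List ι) : V := (I.map τ).prod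

theorem xx_cons (i : ι) (I : List ι) : xx τ (i :: I) = τ i * xx τ I := by simp [xx]

theorem deg_xx {N : ℕ → Submodule K V} (hN : ∀ i, Deg (τ i) 1 N N) (I : List ι) :
    Deg (xx τ I) I.length N N := by
  induction I with
  | nil => intro d v hv; simpa [xx] using hv
  | cons i I ih => rw [xx_cons]; exact (hN i).mul ih

/-- cochains of length `p` -/
def CC (p : ℕ) (N : ℕ → Submodule K V) (d : ℕ) : Submodule K (List ι → V) where
  carrier := {c | ∀ I : List ι, I.length = p → c I ∈ Lg (xx τ I) p N d}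
  add_mem' := fun ha hb I hI => Submodule.add_mem _ (ha I hI) (hb I hI)
  zero_mem' := fun _ _ => Submodule.zero_mem _
  smul_mem' := fun r _ ha I hI => Submodule.smul_mem _ r (ha I hI)

theorem dl_mem {N : ℕ → Submodule K V} (hN : ∀ i, Deg (τ i) 1 N N) (d : ℕ) (I : List ι) :
    ∀ (c : List ι → V) (y : V) (k : ℕ),
      (∀ J : List ι, J.length + 1 = I.length → c J ∈ Lg (y * xx τ J) (k + J.length) N d) →
      dl I c ∈ Lg (y * xx τ I) (k + I.length) N d := by
  induction I with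
  | nil => intro c y k _; exact Submodule.zero_mem _
  | cons i I ih =>
    intro c y k hc
    refine Submodule.sub_mem _ ?_ ?_
    · have := Lg_mul (hN i) (hc I rfl)
      rw [mul_left_comm, ← xx_cons] at this
      exact this
    · have := ih (fun J => c (i :: J)) (y * τ i) (k + 1) (fun J hJ => by
        have := hc (i :: J) (by simp [hJ])
        rw [xx_cons, ← mul_assoc, List.length_cons, add_comm J.length 1, ← add_assoc] at this
        exact this)
      rw [xx_cons, ← mul_assoc, List.length_cons, add_comm I.length 1, ← add_assoc]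
      exact this

theorem δ_mem {N : ℕ → Submodule K V} (hN : ∀ i, Deg (τ i) 1 N N) {p d : ℕ} {c : List ι → V}
    (hc : c ∈ CC τ p N d) : δ K c ∈ CC τ (p + 1) N d := by
  intro I hI
  have := dl_mem τ hN d I c 1 0 (fun J hJ => by
    have h1 : J.length = p := by omega
    rw [one_mul, zero_add, h1]
    exact hc J h1)
  rw [one_mul, zero_add, hI] at this
  exact this

theorem δ_mem_zero (N : ℕ → Submodule K V) (d : ℕ) (c : List ι → V) : δ K c ∈ CC τ 0 N d := by
  intro I hI
  rw [List.length_eq_zero_iff.1 hI]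
  exact Submodule.zero_mem _

theorem smul_mem_CC {z : V} {j : ℕ} {N N' : ℕ → Submodule K V} (hz : Deg z j N N') {p d : ℕ}
    {c : List ι → V} (hc : c ∈ CC τ p N d) : z • c ∈ CC τ p N' (d + j) :=
  fun I hI => Lg_smul hz (hc I hI)

theorem CC_mono {N N' : ℕ → Submodule K V} (hle : ∀ d, N d ≤ N' d) (p d : ℕ) :
    CC τ p N d ≤ CC τ p N' d := fun _ hc I hI => Lg_mono hle (hc I hI)

theorem CC_ker {x : V} {N N' : ℕ → Submodule K V} {p d : ℕ} {c : List ι → V}
    (h : c ∈ CC τ p N d) (h' : x • c ∈ CC τ p N' (d + 1)) : c ∈ CC τ p (KerF x N N') d :=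
  fun I hI => Lg_ker (h I hI) (h' I hI)

theorem CC_cok (hreg : ∀ a : V, ∃ b, a * a * b = a) {x : V} {N N' : ℕ → Submodule K V}
    (hN : ∀ i, Deg (τ i) 1 N N) (hN' : ∀ i, Deg (τ i) 1 N' N') {p d : ℕ} {c : List ι → V}
    (h : c ∈ CC τ p (CokF x N N') (d + 1)) :
    ∃ b ∈ CC τ p N d, c - x • b ∈ CC τ p N' (d + 1) := by
  have : ∀ I : List ι, I.length = p →
      ∃ w ∈ Lg (xx τ I) p N d, c I - x * w ∈ Lg (xx τ I) p N' (d + 1) := by
    intro I hI
    exact Lg_cok hreg (hI ▸ deg_xx τ hN I) (hI ▸ deg_xx τ hN' I) (h I hI)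
  choose! b hb hb' using this
  exact ⟨b, hb, hb'⟩

theorem hom_mem [Finite ι] {N : ℕ → Submodule K V} (hN : ∀ i, Deg (τ i) 1 N N) (n : ι) {p d : ℕ}
    {c : List ι → V} (hc : c ∈ CC τ (p + 1) N d) :
    ∀ᶠ M in atTop, τ n ^ M • hom n c ∈ CC τ p N (d + M) := by
  have hfin : {I : List ι | I.length = p}.Finite := List.finite_length_eq ι p
  have : ∀ᶠ M in atTop, ∀ I ∈ {I : List ι | I.length = p},
      (τ n ^ M • hom n c) I ∈ Lg (xx τ I) p N (d + M) := by
    rw [eventually_all_finite hfin]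
    intro I hI
    have hI' : I.length = p := hI
    filter_upwards [hc (n :: I) (by simp [hI'])] with M hM
    apply Lg_of_exists (hI' ▸ deg_xx τ hN I) (M := M)
    rw [xx_cons, mul_pow, mul_comm (τ n ^ M), mul_assoc, add_mul, one_mul, add_comm (p * M),
      ← add_assoc] at hM
    exact hM
  filter_upwards [this] with M hM
  exact hM

/-- cocycles of `N / N'` -/
def ZZ (p : ℕ) (N N' : ℕ → Submodule K V) (d : ℕ) : Submodule K (List ι → V) :=
  CC τ p N d ⊓ (CC τ (p + 1) N' d).comap (δ K)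

/-- coboundaries of `N / N'` -/
def BB : ℕ → (ℕ → Submodule K V) → (ℕ → Submodule K V) → ℕ → Submodule K (List ι → V)
  | 0, _, N', d => CC τ 0 N' d
  | q + 1, N, N', d => (CC τ q N d).map (δ K) ⊔ CC τ (q + 1) N' d

theorem BB_mono {N₁ N₂ : ℕ → Submodule K V} (hle : ∀ d, N₁ d ≤ N₂ d) (N' : ℕ → Submodule K V)
    (p d : ℕ) : BB τ p N₁ N' d ≤ BB τ p N₂ N' d := by
  rcases p with _ | q
  · exact le_rfl
  · exact sup_le_sup_right (Submodule.map_mono (CC_mono τ hle q d)) _

theorem CC_le_BB (N N' : ℕ → Submodule K V) (p d : ℕ) : CC τ p N' d ≤ BB τ p N N' d := by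
  rcases p with _ | q
  · exact le_rfl
  · exact le_sup_right

/-- the finiteness statement for a pair -/
def Claim (p : ℕ) (N N' : ℕ → Submodule K V) : Prop :=
  (∀ᶠ d in atTop, ZZ τ p N N' d ≤ BB τ p N N' d) ∧ ∀ d, FinOver (ZZ τ p N N' d) (BB τ p N N' d)

/-- multiplication by `x` on cochains -/
def mx (K : Type) [Field K] [Algebra K V] (x : V) : (List ι → V) →ₗ[K] (List ι → V) :=
  (LinearMap.lsmul V (List ι → V) x).restrictScalars K

theorem mx_apply (x : V) (c : List ι → V) : mx K x c = x • c := rfl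

theorem ZZ_smul {z : V} {j : ℕ} {N N' : ℕ → Submodule K V} (hz : Deg z j N N) (hz' : Deg z j N' N')
    {p d : ℕ} {c : List ι → V} (hc : c ∈ ZZ τ p N N' d) : z • c ∈ ZZ τ p N N' (d + j) := by
  refine ⟨smul_mem_CC τ hz hc.1, ?_⟩
  change δ K (z • c) ∈ CC τ (p + 1) N' (d + j)
  rw [δ_smul]
  exact smul_mem_CC τ hz' hc.2

theorem pow_smul_mem_BB [Finite ι] {N N' : ℕ → Submodule K V} (hN : ∀ i, Deg (τ i) 1 N N)
    (hN' : ∀ i, Deg (τ i) 1 N' N') (n : ι) {p d : ℕ} {c : List ι → V} (hc : c ∈ ZZ τ p N N' d) :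
    ∃ M, τ n ^ M • c ∈ BB τ p N N' (d + M) := by
  have h1 := hom_mem τ hN' n (c := δ K c) hc.2
  have e : ∀ M, τ n ^ M • c = δ K (τ n ^ M • hom n c) + τ n ^ M • hom n (δ K c) := by
    intro M
    rw [δ_smul, ← smul_add, ← homotopy]
  rcases p with _ | q
  · obtain ⟨M, hM⟩ := h1.exists
    refine ⟨M, ?_⟩
    rw [e]
    exact Submodule.add_mem _ (δ_mem_zero τ _ _ _) hM
  · obtain ⟨M, hM, hM'⟩ := (h1.and (hom_mem τ hN n hc.1)).exists
    refine ⟨M, ?_⟩
    rw [e]
    exact Submodule.add_mem_sup ⟨_, hM', rfl⟩ hM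

theorem key_lemma (hreg : ∀ a : V, ∃ b, a * a * b = a) {x : V} {N N' : ℕ → Submodule K V}
    (hN : ∀ i, Deg (τ i) 1 N N) (hN' : ∀ i, Deg (τ i) 1 N' N') {q d : ℕ} {c b : List ι → V}
    (hc : c ∈ ZZ τ (q + 1) N N' d) (hcb : x • c - δ K b ∈ CC τ (q + 1) N' (d + 1))
    (hb : b ∈ BB τ q N (CokF x N N') (d + 1)) :
    c ∈ (CC τ q N d).map (δ K) ⊔ ZZ τ (q + 1) (KerF x N N') N' d := by
  have h1 : ∃ b'' ∈ CC τ q (CokF x N N') (d + 1), δ K b'' = δ K b := by
    rcases q with _ | r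
    · exact ⟨b, hb, rfl⟩
    · obtain ⟨_, ⟨b1, _, rfl⟩, b'', hb'', rfl⟩ := Submodule.mem_sup.1 hb
      exact ⟨b'', hb'', by rw [map_add, δδ, zero_add]⟩
  obtain ⟨b'', hb'', e1⟩ := h1
  obtain ⟨b2, hb2, hb'⟩ := CC_cok τ hreg hN hN' hb''
  refine Submodule.mem_sup.2 ⟨δ K b2, ⟨b2, hb2, rfl⟩, c - δ K b2, ⟨?_, ?_⟩, by abel⟩
  · apply CC_ker τ (Submodule.sub_mem _ hc.1 (δ_mem τ hN hb2))
    have e2 : x • (c - δ K b2) = (x • c - δ K b) + δ K (b'' - x • b2) := by
      rw [map_sub, e1, δ_smul, smul_sub]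
      abel
    rw [e2]
    exact Submodule.add_mem _ hcb (δ_mem τ hN' hb')
  · change δ K (c - δ K b2) ∈ CC τ (q + 1 + 1) N' d
    rw [map_sub, δδ, sub_zero]
    exact hc.2

theorem step_ker (hreg : ∀ a : V, ∃ b, a * a * b = a) {x : V} {N N' : ℕ → Submodule K V}
    (hN : ∀ i, Deg (τ i) 1 N N) (hN' : ∀ i, Deg (τ i) 1 N' N')
    (hK : ∀ p, Claim τ p (KerF x N N') N') (hC : ∀ p, Claim τ p N (CokF x N N')) (p : ℕ) :
    (∀ᶠ d in atTop, ZZ τ p N N' d ⊓ (BB τ p N N' (d + 1)).comap (mx K x) ≤ BB τ p N N' d) ∧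
    ∀ d, FinOver (ZZ τ p N N' d ⊓ (BB τ p N N' (d + 1)).comap (mx K x)) (BB τ p N N' d) := by
  have hKN : ∀ d, KerF x N N' d ≤ N d := fun d => inf_le_left
  rcases p with _ | q
  · have h0 : ∀ d, ZZ τ 0 N N' d ⊓ (BB τ 0 N N' (d + 1)).comap (mx K x) ≤
        ZZ τ 0 (KerF x N N') N' d := fun d c hc => ⟨CC_ker τ hc.1.1 hc.2, hc.1.2⟩
    refine ⟨?_, fun d => ((hK 0).2 d).mono (h0 d) le_rfl⟩
    filter_upwards [(hK 0).1] with d hd
    exact (h0 d).trans hd
  · have hb : ∀ d (c b : List ι → V), c ∈ ZZ τ (q + 1) N N' d → b ∈ CC τ q N (d + 1) →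
        x • c - δ K b ∈ CC τ (q + 1) N' (d + 1) → b ∈ ZZ τ q N (CokF x N N') (d + 1) := by
      intro d c b hc hb hcb
      refine ⟨hb, ?_⟩
      change δ K b ∈ CC τ (q + 1) (CokF x N N') (d + 1)
      have e : δ K b = x • c - (x • c - δ K b) := by abel
      rw [e]
      exact Submodule.sub_mem _ (smul_mem_CC τ (deg_CokF x N N') hc.1)
        (CC_mono τ (le_CokF x N N') _ _ hcb)
    have hex : ∀ d (c : List ι → V), x • c ∈ BB τ (q + 1) N N' (d + 1) →
        ∃ b ∈ CC τ q N (d + 1), x • c - δ K b ∈ CC τ (q + 1) N' (d + 1) := by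
      intro d c hc
      obtain ⟨_, ⟨b, hb, rfl⟩, c', hc', e⟩ := Submodule.mem_sup.1 hc
      refine ⟨b, hb, ?_⟩
      rw [← e, add_sub_cancel_left]
      exact hc'
    constructor
    · have h2 := (tendsto_add_atTop_nat 1).eventually (hC q).1
      filter_upwards [(hK (q + 1)).1, h2] with d hd hd' c hc
      obtain ⟨b, hb1, hb2⟩ := hex d c hc.2
      have := key_lemma τ hreg hN hN' hc.1 hb2 (hd' (hb d c b hc.1 hb1 hb2))
      exact (sup_le le_sup_left (hd.trans (BB_mono τ hKN N' _ d))) this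
    · intro d
      let f1 : ((List ι → V) × (List ι → V)) →ₗ[K] (List ι → V) := LinearMap.fst K _ _
      let f2 : ((List ι → V) × (List ι → V)) →ₗ[K] (List ι → V) := LinearMap.snd K _ _
      let f3 : ((List ι → V) × (List ι → V)) →ₗ[K] (List ι → V) :=
        (mx K x).comp f1 - (δ K).comp f2
      let P : Submodule K ((List ι → V) × (List ι → V)) :=
        (ZZ τ (q + 1) N N' d).comap f1 ⊓ (CC τ q N (d + 1)).comap f2 ⊓
          (CC τ (q + 1) N' (d + 1)).comap f3
      have hP : ∀ z, z ∈ P ↔ (z.1 ∈ ZZ τ (q + 1) N N' d ∧ z.2 ∈ CC τ q N (d + 1)) ∧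
          x • z.1 - δ K z.2 ∈ CC τ (q + 1) N' (d + 1) := fun z => Iff.rfl
      have h1 : FinOver P (P ⊓ (BB τ q N (CokF x N N') (d + 1)).comap f2) := by
        refine FinOver.comap f2 ?_ ((hC q).2 (d + 1))
        intro z hz
        obtain ⟨⟨a1, a2⟩, a3⟩ := (hP z).1 hz
        exact hb d z.1 z.2 a1 a2 a3
      have h2 := h1.map f1
      have h3 : FinOver ((CC τ q N d).map (δ K) ⊔ ZZ τ (q + 1) (KerF x N N') N' d)
          (BB τ (q + 1) N N' d) :=
        (((hK (q + 1)).2 d).sup_left _).mono le_rfl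
          (sup_le le_sup_left (BB_mono τ hKN N' _ d))
      refine (h2.mono ?_ ?_).trans h3
      · intro c hc
        obtain ⟨b, hb1, hb2⟩ := hex d c hc.2
        exact ⟨(c, b), (hP (c, b)).2 ⟨⟨hc.1, hb1⟩, hb2⟩, rfl⟩
      · rintro _ ⟨z, hz, rfl⟩
        obtain ⟨⟨a1, _⟩, a3⟩ := (hP z).1 hz.1
        exact key_lemma τ hreg hN hN' a1 a3 hz.2

theorem step [Finite ι] (hreg : ∀ a : V, ∃ b, a * a * b = a) (n : ι) {N N' : ℕ → Submodule K V}
    (hN : ∀ i, Deg (τ i) 1 N N) (hN' : ∀ i, Deg (τ i) 1 N' N')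
    (hK : ∀ p, Claim τ p (KerF (τ n) N N') N') (hC : ∀ p, Claim τ p N (CokF (τ n) N N'))
    (p : ℕ) : Claim τ p N N' := by
  obtain ⟨h1, h2⟩ := step_ker τ hreg hN hN' hK hC p
  obtain ⟨d0, hd0⟩ := eventually_atTop.1 h1
  have h3 : ∀ M d, d0 ≤ d → ∀ c ∈ ZZ τ p N N' d, τ n ^ M • c ∈ BB τ p N N' (d + M) →
      c ∈ BB τ p N N' d := by
    intro M
    induction M with
    | zero => intro d _ c _ h; simpa using h
    | succ M ih =>
      intro d hd c hc h
      apply hd0 d hd
      refine ⟨hc, ?_⟩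
      change τ n • c ∈ BB τ p N N' (d + 1)
      apply ih (d + 1) (by omega) _ (ZZ_smul τ (hN n) (hN' n) hc)
      rw [smul_smul, ← pow_succ, add_assoc, add_comm 1 M]
      exact h
  have h4 : ∀ d, d0 ≤ d → ZZ τ p N N' d ≤ BB τ p N N' d := by
    intro d hd c hc
    obtain ⟨M, hM⟩ := pow_smul_mem_BB τ hN hN' n hc
    exact h3 M d hd c hc hM
  refine ⟨eventually_atTop.2 ⟨d0, h4⟩, ?_⟩
  have h5 : ∀ e d, d0 ≤ d + e → FinOver (ZZ τ p N N' d) (BB τ p N N' d) := by
    intro e
    induction e with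
    | zero => intro d hd; exact FinOver.of_le (h4 d hd)
    | succ e ih =>
      intro d hd
      have := ih (d + 1) (by omega)
      exact (FinOver.comap (mx K (τ n)) (fun c hc => ZZ_smul τ (hN n) (hN' n) hc) this).trans
        (h2 d)
  exact fun d => h5 d0 d (by omega)

theorem base [Finite ι] (N0 : ℕ → Submodule K V) (hN0 : ∀ i, Deg (τ i) 1 N0 N0)
    (hfg : ∀ d, (N0 d).FG)
    (hgen : ∃ d0, ∀ d, d0 ≤ d → N0 (d + 1) ≤ ⨆ i, (N0 d).map (LinearMap.mulLeft K (τ i)))
    {N N' : ℕ → Submodule K V} (hN : ∀ i, Deg (τ i) 1 N N) (hN' : ∀ i, Deg (τ i) 1 N' N')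
    (hle : ∀ d, N d ≤ N0 d) (hin : ∀ i, Deg (τ i) 1 N N') (p : ℕ) : Claim τ p N N' := by
  rcases p with _ | q
  · have hmem : ∀ (F : ℕ → Submodule K V) d (c : List ι → V), c ∈ CC τ 0 F d ↔ c [] ∈ F d := by
      intro F d c
      constructor
      · intro h
        obtain ⟨M, hM⟩ := (mem_Lg.1 (h [] rfl)).exists
        simpa [xx] using hM
      · intro h I hI
        rw [List.length_eq_zero_iff.1 hI]
        filter_upwards with M
        simpa [xx] using h
    constructor
    · obtain ⟨d0, hd0⟩ := noether τ N0 N hN0 hfg hgen hN hle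
      refine eventually_atTop.2 ⟨d0 + 1, fun d hd c hc => ?_⟩
      obtain ⟨e, rfl⟩ : ∃ e, d = e + 1 := ⟨d - 1, by omega⟩
      have h1 := hd0 e (by omega) ((hmem _ _ _).1 hc.1)
      refine (hmem _ _ _).2 ((iSup_le fun i => ?_ : _ ≤ N' (e + 1)) h1)
      rintro _ ⟨v, hv, rfl⟩
      exact hin i e v hv
    · intro d
      refine ⟨(N0 d).map (LinearMap.pi fun _ => LinearMap.id), (hfg d).map _, fun c hc => ?_⟩
      refine Submodule.mem_sup.2 ⟨c - fun _ => c [], (hmem _ _ _).2 (by simp), fun _ => c [],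
        ⟨c [], hle d ((hmem _ _ _).1 hc.1), rfl⟩, by simp⟩
  · have h1 : ∀ d, ZZ τ (q + 1) N N' d ≤ BB τ (q + 1) N N' d := by
      intro d c hc
      apply CC_le_BB τ N N'
      intro I hI
      obtain ⟨M, hM⟩ := (mem_Lg.1 (hc.1 I hI)).exists
      apply Lg_of_exists (hI ▸ deg_xx τ hN' I) (M := M + 1)
      rcases I with _ | ⟨i, I⟩
      · simp at hI
      · have h2 : I.length = q := by simpa using hI
        have h3 := ((hin i).mul (deg_xx τ hN I)) _ _ hM
        rw [← xx_cons, ← mul_assoc, ← pow_succ', h2, add_assoc] at h3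
        rw [mul_add, mul_one]
        exact h3
    exact ⟨Eventually.of_forall h1, fun d => FinOver.of_le (h1 d)⟩

theorem main [Finite ι] (hreg : ∀ a : V, ∃ b, a * a * b = a)
    (N0 : ℕ → Submodule K V) (hN0 : ∀ i, Deg (τ i) 1 N0 N0) (hfg : ∀ d, (N0 d).FG)
    (hgen : ∃ d0, ∀ d, d0 ≤ d → N0 (d + 1) ≤ ⨆ i, (N0 d).map (LinearMap.mulLeft K (τ i)))
    (A : Finset ι) : ∀ N N' : ℕ → Submodule K V, (∀ i, Deg (τ i) 1 N N) →
      (∀ i, Deg (τ i) 1 N' N') → (∀ d, N d ≤ N0 d) → (∀ i, i ∉ A → Deg (τ i) 1 N N') →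
      ∀ p, Claim τ p N N' := by
  classical
  induction A using Finset.induction_on with
  | empty =>
    intro N N' hN hN' hle hin p
    exact base τ N0 hN0 hfg hgen hN hN' hle (fun i => hin i (by simp)) p
  | insert n A _ ih =>
    intro N N' hN hN' hle hin p
    refine step τ hreg n hN hN' (ih _ _ (fun i => stab_KerF (hN i) (hN' i)) hN'
      (fun d => inf_le_left.trans (hle d)) ?_) (ih _ _ hN (fun i => stab_CokF (hN i) (hN' i))
      hle ?_) p
    · intro i hi d v hv
      by_cases h : i = n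
      · subst h; exact hv.2
      · exact hin i (by simp [h, hi]) d v hv.1
    · intro i hi d v hv
      by_cases h : i = n
      · subst h; exact deg_CokF _ N N' d v hv
      · exact le_CokF _ N N' _ (hin i (by simp [h, hi]) d v hv)

/-- a family indexed by pairs as a cochain -/
def pairCo (c : ι → ι → V) : List ι → V
  | [i, j] => c i j
  | _ => 0

end Cech

theorem thm_serre : Pool.Agent.H505Z.NP.S_serre := by
  intro K V _ _ _ ι _ τ hreg N hfg hN hgen c hc hcoc
  have hN' : ∀ i, Deg (τ i) 1 N N := fun i d v hv => hN d i v hv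
  have hbot : ∀ (y : V) (k : ℕ), Deg y k (fun _ => (⊥ : Submodule K V)) (fun _ => ⊥) := by
    intro y k d v hv
    have : v = 0 := hv
    simp [this]
  have h := (main τ hreg N hN' hfg hgen Finset.univ N (fun _ => ⊥) hN' (fun i => hbot _ _)
    (fun _ => le_rfl) (fun i hi => absurd (Finset.mem_univ i) hi) 2).2 0
  have hZ : ∀ m, pairCo (c m) ∈ ZZ τ 2 N (fun _ => ⊥) 0 := by
    intro m
    constructor
    · intro I hI
      obtain ⟨i, j, rfl⟩ := List.length_eq_two.1 hI
      obtain ⟨M, hM⟩ := hc m i j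
      apply Lg_of_exists (deg_xx τ hN' [i, j]) (M := M)
      simpa [xx, pairCo] using hM
    · intro I hI
      obtain ⟨i, j, l, rfl⟩ := List.length_eq_three.1 hI
      apply Lg_of_exists (hbot _ _) (M := 1)
      have := hcoc m i j l
      simp only [xx, δ_apply, dl, pairCo, List.map_cons, List.map_nil, List.prod_cons,
        List.prod_nil, Submodule.mem_bot]
      linear_combination this
  obtain ⟨a, ha, hB⟩ := h.exists_comb _ hZ
  obtain ⟨_, ⟨w, hw, rfl⟩, c', hc', e⟩ := Submodule.mem_sup.1 hB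
  refine ⟨a, fun i => w [i], ha, fun i => ?_, fun i j => ?_⟩
  · obtain ⟨M, hM⟩ := (mem_Lg.1 (hw [i] rfl)).exists
    exact ⟨M, by simpa [xx] using hM⟩
  · obtain ⟨M, hM⟩ := (mem_Lg.1 (hc' [i, j] rfl)).exists
    refine ⟨M, ?_⟩
    have e1 := congrFun e [i, j]
    rw [Finsupp.sum_apply'] at e1
    simp only [Pi.add_apply, δ_apply, dl, Pi.smul_apply, pairCo, sub_zero] at e1
    rw [← e1, add_sub_cancel_left]
    simpa [xx] using hM

end Pool.Agent.H350Z.Serre
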