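import Mathlib

/-! Linear algebra and the Hilbert basis lemma for the Serre finiteness theorem. -/

set_option autoImplicit false

namespace Pool.Agent.H350Z.Serre

open Polynomial

section FO
variable {K : Type} [Field K] {W W' : Type} [AddCommGroup W] [Module K W]
  [AddCommGroup W'] [Module K W']

/-- `Z` is finite-dimensional modulo `B`. -/
def FinOver (Z B : Submodule K W) : Prop := ∃ T : Submodule K W, T.FG ∧ Z ≤ B ⊔ T

theorem FinOver.of_le {Z B : Submodule K W} (h : Z ≤ B) : FinOver Z B :=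
  ⟨⊥, Submodule.fg_bot, by simpa using h⟩

theorem FinOver.mono {Z Z' B B' : Submodule K W} (h : FinOver Z B) (h1 : Z' ≤ Z) (h2 : B ≤ B') :
    FinOver Z' B' := by
  obtain ⟨T, hT, hle⟩ := h
  exact ⟨T, hT, h1.trans (hle.trans (sup_le_sup_right h2 _))⟩

theorem FinOver.trans {Z Y B : Submodule K W} (h : FinOver Z Y) (h' : FinOver Y B) :
    FinOver Z B := by
  obtain ⟨T, hT, hle⟩ := h
  obtain ⟨T', hT', hle'⟩ := h'
  refine ⟨T' ⊔ T, hT'.sup hT, hle.trans ?_⟩
  rw [← sup_assoc]
  exact sup_le_sup_right hle' _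

theorem FinOver.map {Z B : Submodule K W} (h : FinOver Z B) (f : W →ₗ[K] W') :
    FinOver (Z.map f) (B.map f) := by
  obtain ⟨T, hT, hle⟩ := h
  refine ⟨T.map f, hT.map f, ?_⟩
  rw [← Submodule.map_sup]
  exact Submodule.map_mono hle

theorem FinOver.sup_left {Z B : Submodule K W} (h : FinOver Z B) (Y : Submodule K W) :
    FinOver (Y ⊔ Z) (Y ⊔ B) := by
  obtain ⟨T, hT, hle⟩ := h
  refine ⟨T, hT, ?_⟩
  rw [sup_assoc]
  exact sup_le_sup_left hle _

theorem FinOver.comap {Z : Submodule K W} {Z' B' : Submodule K W'} (f : W →ₗ[K] W')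
    (hf : ∀ z ∈ Z, f z ∈ Z') (h : FinOver Z' B') : FinOver Z (Z ⊓ B'.comap f) := by
  classical
  obtain ⟨T', hT', hle⟩ := h
  set g := B'.mkQ ∘ₗ f with hg
  have h1 : Z.map g ≤ T'.map B'.mkQ := by
    rintro _ ⟨z, hz, rfl⟩
    obtain ⟨b, hb, t, ht, hbt⟩ := Submodule.mem_sup.1 (hle (hf z hz))
    refine ⟨t, ht, ?_⟩
    simp only [hg, LinearMap.comp_apply, ← hbt, map_add]
    have : B'.mkQ b = 0 := by simpa using hb
    rw [this, zero_add]
  obtain ⟨s, hs⟩ := (hT'.map B'.mkQ).of_le h1
  have h2 : ∀ y ∈ s, ∃ z ∈ Z, g z = y := by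
    intro y hy
    have : y ∈ Z.map g := hs ▸ Submodule.subset_span hy
    exact this
  choose! σ hσZ hσ using h2
  refine ⟨Submodule.span K (s.image σ : Finset W), ⟨_, rfl⟩, ?_⟩
  have hTZ : Submodule.span K (s.image σ : Finset W) ≤ Z := by
    rw [Submodule.span_le]
    intro w hw
    simp only [Finset.coe_image, Set.mem_image, Finset.mem_coe] at hw
    obtain ⟨y, hy, rfl⟩ := hw
    exact hσZ y hy
  have h3 : Z.map g ≤ (Submodule.span K (s.image σ : Finset W)).map g := by
    rw [← hs, Submodule.span_le]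
    intro y hy
    refine ⟨σ y, Submodule.subset_span ?_, hσ y hy⟩
    simp only [Finset.coe_image, Set.mem_image, Finset.mem_coe]
    exact ⟨y, hy, rfl⟩
  intro z hz
  obtain ⟨t, ht, hgt⟩ := h3 ⟨z, hz, rfl⟩
  refine Submodule.mem_sup.2 ⟨z - t, ⟨Z.sub_mem hz (hTZ ht), ?_⟩, t, ht, by simp⟩
  have : g (z - t) = 0 := by rw [map_sub, hgt, sub_self]
  exact (Submodule.Quotient.mk_eq_zero B').1 this

theorem FinOver.exists_comb {Z B : Submodule K W} (h : FinOver Z B) (c : ℕ → W)
    (hc : ∀ m, c m ∈ Z) : ∃ a : ℕ →₀ K, a ≠ 0 ∧ a.sum (fun m r => r • c m) ∈ B := by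
  obtain ⟨T, hT, hle⟩ := h
  have hfg : (T.map B.mkQ).FG := hT.map _
  have : Module.Finite K (T.map B.mkQ) := Module.Finite.iff_fg.2 hfg
  have hmem : ∀ m, B.mkQ (c m) ∈ T.map B.mkQ := by
    intro m
    obtain ⟨b, hb, t, ht, hbt⟩ := Submodule.mem_sup.1 (hle (hc m))
    refine ⟨t, ht, ?_⟩
    have : B.mkQ b = 0 := by simpa using hb
    rw [← hbt, map_add, this, zero_add]
  have hnl := Module.Finite.not_linearIndependent_of_infinite (R := K)
    (fun m : ℕ => (⟨B.mkQ (c m), hmem m⟩ : T.map B.mkQ))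
  rw [linearIndependent_iff] at hnl
  push Not at hnl
  obtain ⟨a, ha, ha0⟩ := hnl
  refine ⟨a, ha0, ?_⟩
  have h1 := congrArg (T.map B.mkQ).subtype ha
  rw [Finsupp.linearCombination_apply, map_finsuppSum] at h1
  have h2 : B.mkQ (a.sum (fun m r => r • c m)) = 0 := by
    rw [map_finsuppSum]
    simpa using h1
  simpa using h2

end FO

section Noether
variable {K V : Type} [Field K] [CommRing V] [Algebra K V] {ι : Type} (τ : ι → V)

/-- multiplication by `y` raises the degree by `k` -/
def Deg (y : V) (k : ℕ) (N N' : ℕ → Submodule K V) : Prop := ∀ d, ∀ v ∈ N d, y * v ∈ N' (d + k)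

/-- the acting algebra -/
noncomputable def SA (K : Type) [Field K] [Algebra K V] : Subalgebra K V[X] :=
  Algebra.adjoin K (Set.range fun i => C (τ i) * X)

/-- the graded module of a stable family -/
noncomputable def QM (N : ℕ → Submodule K V) (hN : ∀ i, Deg (τ i) 1 N N) :
    Submodule (SA τ K) V[X] where
  carrier := {P | ∀ d, P.coeff d ∈ N d}
  add_mem' := by
    intro a b ha hb d
    rw [coeff_add]
    exact (N d).add_mem (ha d) (hb d)
  zero_mem' := by intro d; simp
  smul_mem' := by
    rintro ⟨s, hs⟩ P hP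
    change ∀ d, (s * P).coeff d ∈ N d
    induction hs using Algebra.adjoin_induction generalizing P with
    | mem x hx =>
      obtain ⟨i, rfl⟩ := hx
      intro d
      rcases d with _ | d
      · simp [mul_assoc]
      · simp only [mul_assoc, coeff_C_mul, coeff_X_mul]
        exact hN i d _ (hP d)
    | algebraMap r =>
      intro d
      rw [← Algebra.smul_def, coeff_smul]
      exact (N d).smul_mem r (hP d)
    | add x y _ _ hx hy =>
      intro d
      rw [add_mul, coeff_add]
      exact (N d).add_mem (hx hP d) (hy hP d)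
    | mul x y _ _ hx hy =>
      rw [mul_assoc]
      exact hx (hy hP)

theorem mem_QM {N : ℕ → Submodule K V} {hN : ∀ i, Deg (τ i) 1 N N} {P : V[X]} :
    P ∈ QM τ N hN ↔ ∀ d, P.coeff d ∈ N d := Iff.rfl

theorem QM_fg (N : ℕ → Submodule K V) (hN : ∀ i, Deg (τ i) 1 N N) (hfg : ∀ d, (N d).FG)
    (hgen : ∃ d0, ∀ d, d0 ≤ d → N (d + 1) ≤ ⨆ i, (N d).map (LinearMap.mulLeft K (τ i))) :
    (QM τ N hN).FG := by
  classical
  obtain ⟨d0, hd0⟩ := hgen
  choose t ht using hfg
  set T : Finset V[X] := (Finset.range (d0 + 1)).biUnion fun d => (t d).image (monomial d)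
    with hT
  set U := Submodule.span (SA τ K) (T : Set V[X]) with hU
  have key : ∀ d, ∀ v ∈ N d, monomial d v ∈ U := by
    intro d
    induction d using Nat.strong_induction_on with
    | _ d ih =>
      by_cases hd : d ≤ d0
      · intro v hv
        rw [← ht d] at hv
        induction hv using Submodule.span_induction with
        | mem x hx =>
          apply Submodule.subset_span
          simp only [hT, Finset.coe_biUnion, Finset.coe_range, Set.mem_iUnion, Finset.coe_image]
          exact ⟨d, Nat.lt_succ_of_le hd, x, hx, rfl⟩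
        | zero => simp
        | add x y _ _ hx hy => rw [map_add]; exact U.add_mem hx hy
        | smul r x _ hx =>
          have : monomial d (r • x) = (algebraMap K (SA τ K) r) • monomial d x := by
            rw [algebraMap_smul, smul_monomial]
          rw [this]
          exact U.smul_mem _ hx
      · obtain ⟨e, rfl⟩ : ∃ e, d = e + 1 := ⟨d - 1, by omega⟩
        intro v hv
        have hv' := hd0 e (by omega) hv
        clear hv
        induction hv' using Submodule.iSup_induction' with
        | mem i x hx =>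
          obtain ⟨w, hw, rfl⟩ := hx
          have h1 := ih e (by omega) w hw
          have h2 : (C (τ i) * X : V[X]) ∈ SA τ K := Algebra.subset_adjoin ⟨i, rfl⟩
          have h3 := U.smul_mem ⟨_, h2⟩ h1
          have h4 : (⟨_, h2⟩ : SA τ K) • monomial e w = monomial (e + 1) (τ i * w) := by
            change (C (τ i) * X) * monomial e w = _
            rw [mul_assoc, X_mul_monomial, C_mul_monomial]
          rw [h4] at h3
          exact h3
        | zero => simp
        | add x y _ _ hx hy => rw [map_add]; exact U.add_mem hx hy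
  refine ⟨T, le_antisymm ?_ ?_⟩
  · rw [Submodule.span_le]
    intro P hP
    simp only [hT, Finset.coe_biUnion, Finset.coe_range, Set.mem_iUnion, Finset.coe_image] at hP
    obtain ⟨d, _, x, hx, rfl⟩ := hP
    intro e
    rw [coeff_monomial]
    split_ifs with h
    · subst h
      rw [← ht d]
      exact Submodule.subset_span hx
    · exact (N e).zero_mem
  · intro P hP
    rw [P.as_sum_support]
    exact U.sum_mem fun d _ => key d _ (hP d)

theorem noether [Finite ι] (N0 N : ℕ → Submodule K V) (hN0 : ∀ i, Deg (τ i) 1 N0 N0)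
    (hfg : ∀ d, (N0 d).FG)
    (hgen : ∃ d0, ∀ d, d0 ≤ d → N0 (d + 1) ≤ ⨆ i, (N0 d).map (LinearMap.mulLeft K (τ i)))
    (hN : ∀ i, Deg (τ i) 1 N N) (hle : ∀ d, N d ≤ N0 d) :
    ∃ d0, ∀ d, d0 ≤ d → N (d + 1) ≤ ⨆ i, (N d).map (LinearMap.mulLeft K (τ i)) := by
  classical
  have : IsNoetherianRing (SA τ K) := by
    apply isNoetherianRing_of_fg
    exact Subalgebra.fg_def.2 ⟨_, Set.finite_range _, rfl⟩
  have h1 : (QM τ N hN).FG :=
    (QM_fg τ N0 hN0 hfg hgen).of_le fun P hP d => hle d (hP d)
  obtain ⟨s, hs⟩ := h1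
  set e0 := s.sup natDegree with he0
  let G : ℕ → Submodule K V := fun e =>
    if e ≤ e0 then N e else N e ⊓ ⨆ i, (N (e - 1)).map (LinearMap.mulLeft K (τ i))
  have hGN : ∀ e, G e ≤ N e := by
    intro e
    simp only [G]
    split_ifs
    · exact le_rfl
    · exact inf_le_left
  have hG : ∀ i, Deg (τ i) 1 G G := by
    intro i d v hv
    have hv' := hGN d hv
    simp only [G]
    split_ifs
    · exact hN i d v hv'
    · refine ⟨hN i d v hv', ?_⟩
      exact Submodule.mem_iSup_of_mem i ⟨v, hv', rfl⟩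
  have h2 : QM τ N hN ≤ QM τ G hG := by
    rw [← hs, Submodule.span_le]
    intro P hP e
    have hPN : P ∈ QM τ N hN := hs ▸ Submodule.subset_span hP
    simp only [G]
    split_ifs with h
    · exact hPN e
    · have : P.natDegree ≤ e0 := Finset.le_sup (f := natDegree) hP
      rw [coeff_eq_zero_of_natDegree_lt (by omega)]
      exact Submodule.zero_mem _
  refine ⟨e0, fun d hd v hv => ?_⟩
  have h3 : monomial (d + 1) v ∈ QM τ N hN := by
    intro e
    rw [coeff_monomial]
    split_ifs with h
    · subst h; exact hv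
    · exact (N e).zero_mem
  have h4 := h2 h3 (d + 1)
  rw [coeff_monomial, if_pos rfl] at h4
  simp only [G] at h4
  rw [if_neg (by omega)] at h4
  exact h4.2

end Noether

end Pool.Agent.H350Z.Serre
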